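import Pool.Agent.X202.Wv.E
import Pool.Agent.Helper152.WavTrans
import Pool.Agent.Helper152.WavFilt

set_option autoImplicit false
open Real Filter Topology MeasureTheory
open scoped FourierTransform

namespace Pool.Agent.Results.MP_27eeb4_an.SchwartzWaveletNotBandLimited

open Pool.Agent.X202.Wv Pool.Agent.Helper152

/-- the Fourier transform of the wavelet -/
noncomputable def ph (y : ℝ) : ℂ := hC (y/2) * gC (y/2)

theorem ph_BD : BD ph := by
  have h := (hC_BD.mul gC_BD).scale (1/2)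
  have e : ph = fun y => (fun z => hC z * gC z) ((1/2) * y) := by
    funext y; unfold ph; simp only; rw [show (1/2) * y = y/2 by ring]
  rw [e]; exact h

theorem hC_norm (y : ℝ) : ‖hC y‖ = |mm (y+1/2)| := by
  unfold hC mC
  rw [norm_mul, Complex.norm_real, Real.norm_eq_abs]
  have : ‖Complex.exp (2 * π * Complex.I * y)‖ = 1 := by
    rw [show (2 * π * Complex.I * y : ℂ) = ((2*π*y : ℝ) : ℂ) * Complex.I by push_cast; ring]
    exact Complex.norm_exp_ofReal_mul_I _
  rw [this, one_mul]

theorem ph_RD : RD ph := by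
  intro N
  obtain ⟨C, hC⟩ := gg_decay N
  refine ⟨2^N * C, fun y => ?_⟩
  have h1 : ‖ph y‖ ≤ |gg (y/2)| := by
    unfold ph
    rw [norm_mul, hC_norm, gC, Complex.norm_real, Real.norm_eq_abs]
    exact mul_le_of_le_one_left (abs_nonneg _) (mm_abs _)
  have h2 : (1+|y|)^N ≤ 2^N * (1+|y/2|)^N := by
    rw [← mul_pow]
    gcongr
    rw [abs_div, abs_two]; linarith
  have h3 := hC (y/2)
  calc (1+|y|)^N * ‖ph y‖ ≤ (2^N * (1+|y/2|)^N) * |gg (y/2)| := by gcongr
    _ = 2^N * ((1+|y/2|)^N * |gg (y/2)|) := by ring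
    _ ≤ _ := by gcongr

theorem ph_good : Wav.Good ph := by
  have h := WavFilt.good_of_filter gC mC hC gC_contDiff.continuous.measurable
    mC_contDiff.continuous.measurable hC_contDiff.continuous.measurable
    (fun y => by unfold mC; rw [mm_add_one]) hC_per
    (Eventually.of_forall (fun y => by unfold gC mC; rw [gg_two, Complex.ofReal_mul]))
    (Eventually.of_forall (fun y => gg_enn y))
    (Eventually.of_forall (fun y => by
      simp only [mC, Complex.norm_real, Real.norm_eq_abs, sq_abs]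
      exact mm_sq y))
    (Eventually.of_forall (fun y => by
      rw [hC_norm, hC_norm, sq_abs, sq_abs, show y + 1/2 + 1/2 = y + 1 by ring, mm_add_one, add_comm]
      exact mm_sq y))
    (Eventually.of_forall (fun y => by
      have e1 : hC (y + 1/2) = - (Complex.exp (2 * π * Complex.I * y) * mC y) := by
        unfold hC mC
        rw [show y + 1/2 + 1/2 = y + 1 by ring, mm_add_one]
        have : (2 * π * Complex.I * ((y+1/2 : ℝ) : ℂ) : ℂ) = 2 * π * Complex.I * (y : ℂ) + π * Complex.I := by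
          push_cast; ring
        rw [this, Complex.exp_add, Complex.exp_pi_mul_I]; ring
      rw [e1, map_neg, map_mul, hC, map_mul]
      have e2 : ∀ z, (starRingEnd ℂ) (mC z) = mC z := fun z => Complex.conj_ofReal _
      rw [e2, e2]; ring))
    (Eventually.of_forall (fun y => by
      have hev : ∀ᶠ j : ℕ in atTop, ‖gC (y/2^j)‖ = 1 := by
        filter_upwards [ev_pow (4*|y|)] with j hj
        rw [gC, gg_one]
        · simp
        · rw [abs_div, abs_of_pos (by positivity : (0:ℝ) < 2^j), div_le_iff₀ (by positivity)]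
          linarith
      exact tendsto_const_nhds.congr' (by filter_upwards [hev] with j hj; rw [hj])))
  exact h

theorem ph_support : ¬ HasCompactSupport ph := by
  intro hc
  obtain ⟨R, hR⟩ := hc.isBounded.subset_closedBall (0:ℝ)
  obtain ⟨n, hn⟩ := pow_unbounded_of_one_lt (3*R) (one_lt_two : (1:ℝ) < 2)
  have hne : ph (2*((2:ℝ)^n/3 + 1/100)) ≠ 0 := by
    unfold ph
    rw [show 2*((2:ℝ)^n/3 + 1/100)/2 = (2:ℝ)^n/3 + 1/100 by ring]
    apply mul_ne_zero
    · rw [← norm_ne_zero_iff, hC_norm, abs_ne_zero]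
      exact mm_nz2 n
    · unfold gC
      exact_mod_cast gg_nz n
  have h1 := hR (subset_tsupport _ (Function.mem_support.2 hne))
  rw [mem_closedBall_zero_iff, Real.norm_of_nonneg (by positivity)] at h1
  linarith [(by positivity : (0:ℝ) < 2^n)]

/-- There is an orthonormal wavelet in the Schwartz class whose Fourier transform is not compactly
supported. -/
theorem result : ∃ ψ : SchwartzMap ℝ ℂ,
    (∃ b : HilbertBasis (ℤ × ℤ) ℂ (Lp ℂ 2 (volume : Measure ℝ)), ∀ j k : ℤ,
      (⇑(b (j, k)) : ℝ → ℂ) =ᵐ[volume]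
        fun x : ℝ => (((2:ℝ) ^ ((j:ℝ) / 2) : ℝ) : ℂ) * ψ ((2:ℝ) ^ j * x - (k:ℝ))) ∧
    ¬ HasCompactSupport (𝓕 (ψ : ℝ → ℂ)) := by
  set P : SchwartzMap ℝ ℂ := toS ph ph_BD ph_RD with hP
  have hPc : (P : ℝ → ℂ) = ph := rfl
  set ψ : SchwartzMap ℝ ℂ := 𝓕⁻ P with hψ
  have hF : 𝓕 ψ = P := FourierTransform.fourier_fourierInv_eq P
  refine ⟨ψ, ?_, ?_⟩
  · have h1 : (ψ.toLp 2 volume : Lp ℂ 2 (volume : Measure ℝ)) ∈ WavTrans.SW := by
      apply WavTrans.mem_of_good
      rw [SchwartzMap.toLp_fourier_eq, hF]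
      show Wav.Good _
      have h2 : ph =ᵐ[volume] (P.toLp 2 volume : ℝ → ℂ) := by
        rw [← hPc]; exact (P.coeFn_toLp 2 volume).symm
      exact WavPath.good_congr h2 ph_good
    obtain ⟨b, hb⟩ := h1
    refine ⟨b, fun j k => (hb j k).trans ?_⟩
    have h3 := Lar.ae_affine (P := fun x => (ψ.toLp 2 volume : ℝ → ℂ) x = ψ x)
      (ψ.coeFn_toLp 2 volume) ((2:ℝ)^j) (-(k:ℝ)) (by positivity)
    filter_upwards [h3] with x hx
    rw [← sub_eq_add_neg] at hx
    rw [hx]
  · rw [← SchwartzMap.fourier_coe, hF, hPc]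
    exact ph_support

end Pool.Agent.Results.MP_27eeb4_an.SchwartzWaveletNotBandLimited
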